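import Pool.Agent.Q81.FT.Alg

/-!
# MP_39588e_an: a Frechet algebra of power series in infinitely many variables with two topologies

The algebra `A` of all power series `f` in `ℂ[[X₀, X₁, ...]]` such that `f(0, X₁, 0, 0, ...)` has
absolutely summable coefficients is a proper subalgebra, contains all `Xᵢ`, and carries a Frechet
algebra topology for which all coefficient functionals are continuous; it carries a second
Frechet algebra topology.
-/

namespace Pool.Agent.Results.MP_39588e_an.SecondTopology

open MvPowerSeries Filter Pool.Agent.Q81.FT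
open scoped ENNReal

/-- `t` is a Frechet algebra topology on `A`: it is given by an increasing sequence of
submultiplicative seminorms, which is separating and complete. -/
def IsFrechetAlgebraTopology (A : Type) [CommRing A] [Algebra ℂ A] (t : TopologicalSpace A) :
    Prop :=
  ∃ p : ℕ → Seminorm ℂ A, Monotone p ∧ (∀ m a b, p m (a * b) ≤ p m a * p m b) ∧
    @WithSeminorms ℂ A ℕ _ _ _ p t ∧ (∀ a, (∀ m, p m a = 0) → a = 0) ∧
    ∀ u : ℕ → A, (∀ m, ∀ ε > 0, ∃ N, ∀ i ≥ N, ∀ j ≥ N, p m (u i - u j) < ε) →
      ∃ a : A, Tendsto u atTop (@nhds A t a)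

/-- The algebra `ℂ[[X₀, X₁, X₂, ...]]`. -/
abbrev Finf : Type := MvPowerSeries ℕ ℂ

/-- `A` with the topology `t` is a Frechet algebra of power series. -/
def IsFrAPS (A : Subalgebra ℂ Finf) (t : TopologicalSpace A) : Prop :=
  IsFrechetAlgebraTopology A t ∧ (∀ i : ℕ, (X i : Finf) ∈ A) ∧
    ∀ r : ℕ →₀ ℕ, @Continuous A ℂ t _ (fun a => coeff r (a : Finf))

theorem sn_pull {A : Type} [CommRing A] [Algebra ℂ A] (p : ℕ → Seminorm ℂ A) (hm : Monotone p)
    (hmul : ∀ m a b, p m (a * b) ≤ p m a * p m b) (hsep : ∀ a, (∀ m, p m a = 0) → a = 0)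
    (hcomp : ∀ u : ℕ → A, (∀ m, ∀ ε > 0, ∃ N, ∀ i ≥ N, ∀ j ≥ N, p m (u i - u j) < ε) →
      ∃ a : A, ∀ m, ∀ ε > 0, ∃ N, ∀ i ≥ N, p m (u i - a) < ε) :
    IsFrechetAlgebraTopology A
      (SeminormFamily.moduleFilterBasis (p : SeminormFamily ℂ A ℕ)).topology := by
  refine ⟨p, hm, hmul, ?_, hsep, ?_⟩
  · let _ : TopologicalSpace A :=
      (SeminormFamily.moduleFilterBasis (p : SeminormFamily ℂ A ℕ)).topology
    exact ⟨rfl⟩
  · intro u hu
    obtain ⟨a, ha⟩ := hcomp u hu
    refine ⟨a, ?_⟩
    let _ : TopologicalSpace A :=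
      (SeminormFamily.moduleFilterBasis (p : SeminormFamily ℂ A ℕ)).topology
    have hp : WithSeminorms (p : SeminormFamily ℂ A ℕ) := ⟨rfl⟩
    rw [hp.tendsto_nhds_atTop]
    exact ha

theorem tendsto_iff {A : Type} [CommRing A] [Algebra ℂ A] (p : ℕ → Seminorm ℂ A) (u : ℕ → A)
    (a : A) :
    Tendsto u atTop (@nhds A (SeminormFamily.moduleFilterBasis
      (p : SeminormFamily ℂ A ℕ)).topology a) ↔ ∀ m, ∀ ε > 0, ∃ N, ∀ i ≥ N, p m (u i - a) < ε := by
  let _ : TopologicalSpace A :=
    (SeminormFamily.moduleFilterBasis (p : SeminormFamily ℂ A ℕ)).topology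
  have hp : WithSeminorms (p : SeminormFamily ℂ A ℕ) := ⟨rfl⟩
  exact hp.tendsto_nhds_atTop u a

theorem NN_ones_P_le : NN P ones ≤ 1 := by
  classical
  rw [NN, tsum_eq_single (Finsupp.single 1 1)]
  · refine (Set.indicator_le_self _ _ _).trans ?_
    simp [coeff_ones]
  · intro s hs
    by_cases hsP : s ∈ P
    · rw [Set.indicator_of_mem hsP, coeff_ones, if_neg, enorm_zero]
      intro h
      apply hs
      have h1 : s = Finsupp.single 1 (s 1) := by
        ext i
        by_cases hi : i = 1
        · subst hi; simp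
        · rw [hsP i hi, Finsupp.single_eq_of_ne hi]
      rw [h1, Finsupp.degree_single] at h
      rw [h1, h]
    · rw [Set.indicator_of_notMem hsP]

/-- the series with all coefficients one -/
noncomputable def allOnes : FF := fun _ => 1

theorem coeff_allOnes (s : ℕ →₀ ℕ) : coeff s allOnes = 1 := rfl

/-- the partial sums of the sum of all variables -/
noncomputable def part (N : ℕ) : FF := ∑ i ∈ Finset.range N, X i

theorem X_mem (i : ℕ) : (X i : FF) ∈ AA := by
  classical
  rw [mem_AA]
  refine lt_of_le_of_lt (b := 1) ?_ ENNReal.one_lt_top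
  rw [NN, tsum_eq_single (Finsupp.single i 1)]
  · refine (Set.indicator_le_self _ _ _).trans ?_
    simp
  · intro s hs
    by_cases hsP : s ∈ P
    · rw [Set.indicator_of_mem hsP, coeff_X, if_neg hs, enorm_zero]
    · rw [Set.indicator_of_notMem hsP]

theorem part_mem (N : ℕ) : part N ∈ AA := Subalgebra.sum_mem _ fun i _ => X_mem i

theorem exists_single {s : ℕ →₀ ℕ} (hd : s.degree = 1) : ∃ i, s = Finsupp.single i 1 := by
  classical
  have hs : s ≠ 0 := by
    rintro rfl
    simp at hd
  obtain ⟨i, hi⟩ := Finsupp.ne_iff.1 hs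
  rw [Finsupp.zero_apply] at hi
  have h1 : Finsupp.single i 1 ≤ s := by
    intro j
    by_cases hj : j = i
    · subst hj; simp; omega
    · rw [Finsupp.single_eq_of_ne hj]; exact Nat.zero_le _
  obtain ⟨t, ht⟩ := exists_add_of_le h1
  refine ⟨i, ?_⟩
  rw [ht, map_add, Finsupp.degree_single] at hd
  have : t.degree = 0 := by omega
  rw [Finsupp.degree_eq_zero_iff] at this
  rw [ht, this, add_zero]

theorem NN_part (m N : ℕ) (h : m + 2 ≤ N) : NN (DD m) (part N - ones) = 0 := by
  classical
  rw [NN, ENNReal.tsum_eq_zero]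
  intro s
  by_cases hs : s ∈ DD m
  · rw [Set.indicator_of_mem hs, enorm_eq_zero, map_sub, coeff_ones, part, map_sum]
    by_cases hd : s.degree = 1
    · obtain ⟨i, rfl⟩ := exists_single hd
      have hi : i < N := by
        rcases hs with hs | hs
        · by_contra hc
          have : i ≠ 1 := by omega
          have := hs i this
          simp at this
        · by_contra hc
          have h1 := hs i
          rw [bx_apply, if_neg (by omega)] at h1
          simp at h1
      rw [Finset.sum_eq_single i]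
      · rw [coeff_X, if_pos rfl, if_pos hd, sub_self]
      · intro j _ hj
        rw [coeff_X, if_neg]
        intro h
        have := Finsupp.single_left_injective (one_ne_zero) h
        exact hj this.symm
      · intro h
        exact absurd (Finset.mem_range.2 hi) h
    · rw [if_neg hd, sub_zero]
      refine Finset.sum_eq_zero fun j _ => ?_
      rw [coeff_X, if_neg]
      rintro rfl
      apply hd
      rw [Finsupp.degree_single]
  · rw [Set.indicator_of_notMem hs]

/-- **MP_39588e_an.** Some Frechet algebra of power series in infinitely many variables, different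
from the algebra of all power series, has two different Frechet algebra topologies. -/
theorem result : ∃ (A : Subalgebra ℂ Finf) (t t' : TopologicalSpace A),
    A ≠ ⊤ ∧ IsFrAPS A t ∧ IsFrechetAlgebraTopology A t' ∧ t' ≠ t := by
  classical
  obtain ⟨lam, hl0, hl1⟩ := exists_functional
  set d := del lam with hd
  have h0 : d (X 0) = 0 := del_X lam hl0 0
  have h0' : (-d) (X 0) = 0 := by rw [Derivation.neg_apply, h0, neg_zero]
  -- the exponential preserves the algebra
  have hpres : ∀ e : Derivation ℂ FF FF, ∀ f : FF, f ∈ AA → Ex e f ∈ AA := by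
    intro e f hf
    have : NN P (Ex e f) = NN P f := by
      rw [NN, NN]
      refine tsum_congr fun s => ?_
      by_cases hs : s ∈ P
      · rw [Set.indicator_of_mem hs, Set.indicator_of_mem hs,
          coeff_Ex_of_zero f (hs 0 (by norm_num))]
      · rw [Set.indicator_of_notMem hs, Set.indicator_of_notMem hs]
    rw [mem_AA, this]
    exact hf
  -- the automorphism
  let Φ : AA →ₗ[ℂ] AA := (Ex d).restrict (p := Subalgebra.toSubmodule AA)
    (q := Subalgebra.toSubmodule AA) (hpres d)
  let Ψ : AA →ₗ[ℂ] AA := (Ex (-d)).restrict (p := Subalgebra.toSubmodule AA)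
    (q := Subalgebra.toSubmodule AA) (hpres (-d))
  have hΦ : ∀ f : AA, ((Φ f : AA) : FF) = Ex d f := fun f => rfl
  have hΨ : ∀ f : AA, ((Ψ f : AA) : FF) = Ex (-d) f := fun f => rfl
  have hΦΨ : ∀ f : AA, Φ (Ψ f) = f := fun f => Subtype.ext (by rw [hΦ, hΨ, Ex_neg_Ex h0])
  have hΨΦ : ∀ f : AA, Ψ (Φ f) = f := fun f => Subtype.ext (by
    have := Ex_neg_Ex h0' (f : FF)
    rw [neg_neg] at this
    exact this)
  have hΦmul : ∀ f g : AA, Φ (f * g) = Φ f * Φ g := fun f g => Subtype.ext (by
    show Ex d ((f : FF) * g) = Ex d f * Ex d g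
    exact Ex_mul h0 _ _)
  -- the second family of seminorms
  let q : ℕ → Seminorm ℂ AA := fun m => (sn m).comp Φ
  have hq : ∀ m f, q m f = sn m (Φ f) := fun m f => rfl
  refine ⟨AA, (SeminormFamily.moduleFilterBasis (sn : SeminormFamily ℂ AA ℕ)).topology,
    (SeminormFamily.moduleFilterBasis (q : SeminormFamily ℂ AA ℕ)).topology, ?_,
    ⟨sn_pull sn sn_mono sn_mul sn_sep sn_complete, X_mem, ?_⟩,
    sn_pull q ?_ ?_ ?_ ?_, ?_⟩
  · intro h
    have h1 : allOnes ∈ AA := by rw [h]; exact Algebra.mem_top
    rw [mem_AA] at h1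
    have h2 : (⊤ : ℝ≥0∞) ≤ NN P allOnes := by
      have e1 : ∑' n : ℕ, (1 : ℝ≥0∞) ≤ NN P allOnes := by
        have hinj : Function.Injective (fun n : ℕ => Finsupp.single 1 n) :=
          Finsupp.single_injective 1
        have e2 := ENNReal.tsum_comp_le_tsum_of_injective hinj
          (P.indicator (fun s => ‖coeff s allOnes‖ₑ))
        refine le_trans (le_of_eq ?_) e2
        refine tsum_congr fun n => ?_
        have : Finsupp.single 1 n ∈ P := fun i hi => Finsupp.single_eq_of_ne hi
        rw [Set.indicator_of_mem this, coeff_allOnes]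
        simp
      rw [ENNReal.tsum_const_eq_top_of_ne_zero one_ne_zero] at e1
      exact e1
    exact absurd (lt_of_le_of_lt h2 h1) (lt_irrefl _)
  · intro r
    let _ : TopologicalSpace AA :=
      (SeminormFamily.moduleFilterBasis (sn : SeminormFamily ℂ AA ℕ)).topology
    have hp : WithSeminorms (sn : SeminormFamily ℂ AA ℕ) := ⟨rfl⟩
    obtain ⟨m, hm⟩ := exists_mem_DD r
    let L : AA →ₗ[ℂ] ℂ := (coeff r : FF →ₗ[ℂ] ℂ).comp AA.val.toLinearMap
    have hL : Continuous L := by
      refine WithSeminorms.continuous_normedSpace_rng ℂ hp L ⟨{m}, 1, ?_⟩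
      intro f
      show ‖coeff r (f : FF)‖ ≤ _
      simp only [Finset.sup_singleton, one_smul]
      exact norm_coeff_le hm f
    exact hL
  · intro m n h f
    exact sn_mono h (Φ f)
  · intro m f g
    rw [hq, hq, hq, hΦmul]
    exact sn_mul m _ _
  · intro f hf
    have := sn_sep (Φ f) hf
    have h2 := congrArg Ψ this
    rw [hΨΦ, map_zero] at h2
    exact h2
  · intro u hu
    obtain ⟨a, ha⟩ := sn_complete (fun n => Φ (u n)) (by
      intro m ε hε
      obtain ⟨N, hN⟩ := hu m ε hε
      refine ⟨N, fun i hi j hj => ?_⟩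
      have := hN i hi j hj
      rwa [hq, map_sub] at this)
    refine ⟨Ψ a, fun m ε hε => ?_⟩
    obtain ⟨N, hN⟩ := ha m ε hε
    refine ⟨N, fun i hi => ?_⟩
    rw [hq, map_sub, hΦΨ]
    exact hN i hi
  · intro htt
    have hones : ones ∈ AA := lt_of_le_of_lt NN_ones_P_le ENNReal.one_lt_top
    let x : AA := ⟨ones, hones⟩
    let u : ℕ → AA := fun N => ⟨part N, part_mem N⟩
    let x0 : AA := ⟨X 0, X_mem 0⟩
    have hu : ∀ m N, m + 2 ≤ N → sn m (u N - x) = 0 := by
      intro m N h
      rw [sn_apply]
      show (NN (DD m) (part N - ones)).toReal = 0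
      rw [NN_part m N h]; rfl
    have h1 : Tendsto u atTop (@nhds AA (SeminormFamily.moduleFilterBasis
        (sn : SeminormFamily ℂ AA ℕ)).topology x) := by
      rw [tendsto_iff]
      intro m ε hε
      exact ⟨m + 2, fun i hi => by rw [hu m i hi]; exact hε⟩
    rw [← htt, tendsto_iff] at h1
    -- the automorphism on linear forms
    have hE1 : ∀ f : FF, d (d f) = 0 → Ex d f = f + X 0 * d f := by
      intro f hf
      have e1 : E d 1 f = X 0 * d f := by
        have := E_succ d 0 f
        rw [E_zero] at this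
        simpa using this
      have e2 : ∀ n, E d (n + 2) f = 0 := by
        intro n
        induction n with
        | zero =>
          have h' : ((1 + 1 : ℕ) : ℂ) ≠ 0 := by norm_num
          apply smul_inj h'
          rw [E_succ, e1, Derivation.leibniz, hf, h0]
          simp
        | succ n ih =>
          have h' : ((n + 2 + 1 : ℕ) : ℂ) ≠ 0 := by exact_mod_cast Nat.succ_ne_zero (n + 2)
          apply smul_inj h'
          rw [E_succ, ih, map_zero, mul_zero, smul_zero]
      ext s
      rw [coeff_Ex h0 f (Nat.le_succ (s 0)), Finset.sum_range_succ', Finset.sum_range_succ',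
        E_zero, e1]
      rw [Finset.sum_eq_zero (fun n _ => by rw [e2, map_zero]), zero_add, map_add, add_comm]
    have hdp : ∀ N, d (part N) = 0 := by
      intro N
      rw [part, map_sum]
      exact Finset.sum_eq_zero fun i _ => del_X lam hl0 i
    have hd1 : d ones = 1 := del_ones lam hl1
    have hΦu : ∀ N, Φ (u N) = u N := by
      intro N
      apply Subtype.ext
      rw [hΦ]
      show Ex d (part N) = part N
      rw [hE1 _ (by rw [hdp, map_zero]), hdp, mul_zero, add_zero]
    have hΦx : Φ x = x + x0 := by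
      apply Subtype.ext
      rw [hΦ]
      show Ex d ones = ones + X 0
      rw [hE1 _ (by rw [hd1, Derivation.map_one_eq_zero]), hd1, mul_one]
    obtain ⟨N, hN⟩ := h1 1 (1 / 2) (by norm_num)
    have h2 := hN (max N 3) (le_max_left _ _)
    rw [hq, map_sub, hΦu, hΦx] at h2
    have h3 : u (max N 3) - (x + x0) = (u (max N 3) - x) - x0 := by ring
    rw [h3] at h2
    have h4 : sn 1 x0 ≤ sn 1 ((u (max N 3) - x) - x0) + sn 1 (u (max N 3) - x) := by
      have h5 : x0 = (u (max N 3) - x) - ((u (max N 3) - x) - x0) := by ring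
      calc sn 1 x0 = sn 1 ((u (max N 3) - x) - ((u (max N 3) - x) - x0)) := by rw [← h5]
        _ ≤ sn 1 (u (max N 3) - x) + sn 1 ((u (max N 3) - x) - x0) := map_sub_le_add _ _ _
        _ = _ := add_comm _ _
    rw [hu 1 (max N 3) (le_max_right _ _), add_zero] at h4
    have hmem : Finsupp.single 0 1 ∈ DD 1 := by
      right
      intro i
      rw [bx_apply]
      by_cases hi : i = 0
      · subst hi; simp
      · rw [Finsupp.single_eq_of_ne hi]; exact Nat.zero_le _
    have h6 := norm_coeff_le hmem x0
    have h7 : ‖coeff (Finsupp.single 0 1) (x0 : FF)‖ = 1 := by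
      show ‖coeff (Finsupp.single 0 1) (X 0 : FF)‖ = 1
      rw [coeff_X, if_pos rfl, norm_one]
    linarith

end Pool.Agent.Results.MP_39588e_an.SecondTopology
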